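import Mathlib
set_option autoImplicit false

namespace Pool.Agent.H.MP_f2a48e_co
open Finset

structure Con (k m : ℕ) where
  L : Type
  C : Type
  [fL : Fintype L]
  [oL : LinearOrder L]
  [oC : LinearOrder C]
  p : L → C
  row : L → Fin m → Finset C
  D : Finset C
  h0 : 1 ≤ Fintype.card L
  h1 : StrictMono p
  h2 : ∀ l i, p l ∈ row l i
  h3 : ∀ l i, ∀ c ∈ row l i, c = p l ∨ (p l < c ∧ c ∈ D)
  h4 : ∀ l, p l ∉ D
  h5 : ∀ l i, k ≤ (row l i).card
  h6 : ∀ l i l' i', (l' < l ∨ l' = l ∧ i < i') → ∀ c2 ∈ row l' i', ∀ c3 ∈ row l i, ∀ c4 ∈ row l' i',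
    p l ≤ c2 → c2 < c3 → c3 ≤ c4 → False

attribute [instance] Con.fL Con.oL Con.oC

theorem step {k m : ℕ} (T : Con (k + 1) m) (U : Con k (Fintype.card T.L)) :
    ∃ S : Con (k + 1) (m + 1), Fintype.card S.L = Fintype.card U.L * Fintype.card T.L ∧
      S.D.card ≤ U.D.card + Fintype.card U.L + Fintype.card U.L * T.D.card := by
  let e := monoEquivOfFin T.L rfl
  let ix : T.L → Fin (Fintype.card T.L) := fun l => (e.symm l).rev
  have hix : ∀ l l', l' < l → ix l < ix l' := fun l l' h =>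
    Fin.rev_lt_rev.2 (e.symm.lt_iff_lt.2 h)
  let f : U.C → U.C ×ₗ WithTop T.C := fun c => toLex (c, ⊤)
  let g : U.L → T.C → U.C ×ₗ WithTop T.C := fun j c => toLex (U.p j, (c : WithTop T.C))
  have ff : ∀ a b, f a < f b ↔ a < b := fun a b => by simp [f, Prod.Lex.toLex_lt_toLex]
  have fg : ∀ a j c, f a < g j c ↔ a < U.p j := fun a j c => by simp [f, g, Prod.Lex.toLex_lt_toLex]
  have gf : ∀ a j c, g j c < f a ↔ U.p j ≤ a := fun a j c => by
    simp [f, g, Prod.Lex.toLex_lt_toLex, le_iff_lt_or_eq]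
  have gg : ∀ j c j' c', g j c < g j' c' ↔ j < j' ∨ j = j' ∧ c < c' := fun j c j' c' => by
    simp [g, Prod.Lex.toLex_lt_toLex, U.h1.lt_iff_lt, U.h1.injective.eq_iff]
  have ne : ∀ a j c, f a ≠ g j c := fun a j c h => by simp [f, g] at h
  have ge : ∀ j c j' c', g j c = g j' c' → j = j' ∧ c = c' := fun j c j' c' h => by
    simpa [g, U.h1.injective.eq_iff] using h
  have ul : ∀ j i, ∀ c ∈ U.row j i, U.p j ≤ c := fun j i c hc =>
    (U.h3 j i c hc).elim (fun h => h.ge) fun h => h.1.le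
  have tl : ∀ j i, ∀ c ∈ T.row j i, T.p j ≤ c := fun j i c hc =>
    (T.h3 j i c hc).elim (fun h => h.ge) fun h => h.1.le
  let R : U.L ×ₗ T.L → Fin (m + 1) → Finset (U.C ×ₗ WithTop T.C) := fun x =>
    Fin.cons (insert (g (ofLex x).1 (T.p (ofLex x).2)) ((U.row (ofLex x).1 (ix (ofLex x).2)).image f))
      fun i => (T.row (ofLex x).2 i).image (g (ofLex x).1)
  have R0 : ∀ j l c, c ∈ R (toLex (j, l)) 0 ↔ c = g j (T.p l) ∨ ∃ a ∈ U.row j (ix l), f a = c :=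
    fun j l c => by simp [R]
  have R1 : ∀ j l i c, c ∈ R (toLex (j, l)) (Fin.succ i) ↔ ∃ a ∈ T.row l i, g j a = c :=
    fun j l i c => by simp [R]
  refine ⟨⟨U.L ×ₗ T.L, U.C ×ₗ WithTop T.C, fun x => g (ofLex x).1 (T.p (ofLex x).2), R,
    (U.D ∪ univ.image U.p).image f ∪ (univ ×ˢ T.D).image fun x => g x.1 x.2, ?_, ?_, ?_, ?_, ?_, ?_,
    ?_⟩, ?_, ?_⟩
  · simpa using Nat.mul_le_mul U.h0 T.h0
  · rintro ⟨j, l⟩ ⟨j', l'⟩ h
    exact (gg _ _ _ _).2 ((Prod.Lex.toLex_lt_toLex.1 h).imp_right fun h => ⟨h.1, T.h1 h.2⟩)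
  · rintro ⟨j, l⟩ i
    refine Fin.cases ((R0 j l _).2 (Or.inl rfl)) (fun i => (R1 j l i _).2 ⟨_, T.h2 l i, rfl⟩) i
  · rintro ⟨j, l⟩ i
    refine Fin.cases (fun c hc => ?_) (fun i c hc => ?_) i
    · rcases (R0 j l c).1 hc with h | ⟨a, ha, rfl⟩
      · exact Or.inl h
      · refine Or.inr ⟨(gf _ _ _).2 (ul _ _ _ ha), mem_union_left _ (mem_image_of_mem _ ?_)⟩
        rcases U.h3 _ _ _ ha with rfl | h
        · exact mem_union_right _ (mem_image_of_mem _ (mem_univ _))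
        · exact mem_union_left _ h.2
    · obtain ⟨a, ha, rfl⟩ := (R1 j l i c).1 hc
      rcases T.h3 _ _ _ ha with rfl | h
      · exact Or.inl rfl
      · exact Or.inr ⟨(gg _ _ _ _).2 (Or.inr ⟨rfl, h.1⟩), mem_union_right _
          (mem_image.2 ⟨(j, a), mem_product.2 ⟨mem_univ _, h.2⟩, rfl⟩)⟩
  · rintro ⟨j, l⟩ h
    rcases mem_union.1 h with h | h
    · obtain ⟨a, -, h⟩ := mem_image.1 h
      exact ne _ _ _ h
    · obtain ⟨x, hx, h⟩ := mem_image.1 h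
      exact T.h4 l ((ge _ _ _ _ h).2 ▸ (mem_product.1 hx).2)
  · rintro ⟨j, l⟩ i
    refine Fin.cases ?_ (fun i => ?_) i
    · show _ ≤ (insert (g j (T.p l)) ((U.row j (ix l)).image f)).card
      rw [card_insert_of_notMem fun h => by
        obtain ⟨a, -, h⟩ := mem_image.1 h
        exact ne _ _ _ h, card_image_of_injective _ fun a b h => by simpa [f] using h]
      exact Nat.succ_le_succ (U.h5 _ _)
    · show _ ≤ ((T.row l i).image (g j)).card
      rw [card_image_of_injective _ fun a b h => (ge _ _ _ _ h).2]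
      exact T.h5 _ _
  · rintro ⟨j, l⟩ i ⟨j', l'⟩ i' h c2 a2 c3 a3 c4 a4 b1 b2 b3
    replace b1 : ¬ c2 < g j (T.p l) := not_lt.2 b1
    have b4 := b2.trans_le b3
    replace b3 : ¬ c4 < c3 := not_lt.2 b3
    have h' : j' < j ∨ j' = j ∧ (l' < l ∨ l' = l ∧ i < i') := by
      rcases h with h | ⟨h, h2⟩
      · exact (Prod.Lex.toLex_lt_toLex.1 h).imp_right fun h => ⟨h.1, Or.inl h.2⟩
      · obtain ⟨rfl, rfl⟩ := Prod.mk.inj h
        exact Or.inr ⟨rfl, Or.inr ⟨rfl, h2⟩⟩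
    rcases i'.eq_zero_or_eq_succ with rfl | ⟨i', rfl⟩
    · have hl : j' < j ∨ j' = j ∧ l' < l := h'.imp_right fun h =>
        ⟨h.1, h.2.resolve_right fun h => by simp at h⟩
      have lt : g j' (T.p l') < g j (T.p l) :=
        (gg _ _ _ _).2 (hl.imp_right fun h => ⟨h.1, T.h1 h.2⟩)
      obtain ⟨x2, d2, rfl⟩ := ((R0 j' l' _).1 a2).resolve_left fun h => b1 (h ▸ lt)
      obtain ⟨x4, d4, rfl⟩ := ((R0 j' l' _).1 a4).resolve_left fun h =>
        b1 (b4.trans (h ▸ lt))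
      rw [fg, not_lt] at b1
      rcases i.eq_zero_or_eq_succ with rfl | ⟨i, rfl⟩
      · obtain ⟨x3, d3, rfl⟩ := ((R0 j l _).1 a3).resolve_left fun h => by
          rw [h, fg] at b2
          exact b1.not_gt b2
        exact U.h6 j (ix l) j' (ix l') (hl.imp_right fun h => ⟨h.1, hix _ _ h.2⟩) _ d2 _ d3 _ d4 b1
          ((ff _ _).1 b2) (not_lt.1 fun h => b3 ((ff _ _).2 h))
      · obtain ⟨x3, d3, rfl⟩ := (R1 j l i _).1 a3
        rw [fg] at b2
        exact b1.not_gt b2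
    · obtain ⟨x2, d2, rfl⟩ := (R1 j' l' i' _).1 a2
      obtain ⟨x4, d4, rfl⟩ := (R1 j' l' i' _).1 a4
      obtain ⟨rfl, h2⟩ := h'.resolve_left fun h => b1 ((gg _ _ _ _).2 (Or.inl h))
      simp only [gg, lt_self_iff_false, true_and, false_or, not_lt] at b1
      rcases i.eq_zero_or_eq_succ with rfl | ⟨i, rfl⟩
      · rcases (R0 j' l _).1 a3 with rfl | ⟨x3, d3, rfl⟩
        · simp only [gg, lt_self_iff_false, true_and, false_or] at b2
          exact b1.not_gt b2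
        · exact b3 ((gf _ _ _).2 (ul _ _ _ d3))
      · obtain ⟨x3, d3, rfl⟩ := (R1 j' l i _).1 a3
        simp only [gg, lt_self_iff_false, true_and, false_or, not_lt] at b2 b3
        exact T.h6 l i l' i' (h2.imp_right fun h => ⟨h.1, Fin.succ_lt_succ_iff.1 h.2⟩) _ d2 _ d3 _ d4
          b1 b2 b3
  · simp
  · refine (card_union_le _ _).trans (Nat.add_le_add (card_image_le.trans ((card_union_le _ _).trans
      (Nat.add_le_add_left card_image_le _))) (card_image_le.trans ?_))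
    simp

theorem exi (k : ℕ) : ∀ m, ∃ S : Con (k + 1) m, S.D.card ≤ Fintype.card S.L := by
  induction k with
  | zero =>
    exact fun m => ⟨⟨Unit, Unit, id, fun _ _ => {()}, ∅, by simp, strictMono_id, by simp, by simp,
      by simp, by simp, fun _ _ _ _ _ _ _ _ _ _ _ _ h _ => h.ne rfl⟩, by simp⟩
  | succ k ih =>
    intro m
    have key : ∀ j, ∃ S : Con (k + 2) j, 2 * m ≤ Fintype.card S.L ∧
        S.D.card * m ≤ j * Fintype.card S.L ∧ (m = 0 → S.D.card = 0 ∨ j ≠ 0) := by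
      intro j
      induction j with
      | zero =>
        exact ⟨⟨Fin (2 * m + 1), Fin (2 * m + 1), id, fun _ i => i.elim0, ∅, by simp, strictMono_id,
          fun _ i => i.elim0, fun _ i => i.elim0, by simp, fun _ i => i.elim0, fun _ i => i.elim0⟩,
          by simp, by simp, by simp⟩
      | succ j ij =>
        obtain ⟨T, t1, t2, -⟩ := ij
        obtain ⟨U, u1⟩ := ih (Fintype.card T.L)
        obtain ⟨S, s1, s2⟩ := step T U
        have u0 := U.h0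
        refine ⟨S, by rw [s1]; nlinarith, ?_, fun _ => Or.inr (by omega)⟩
        rw [s1]
        have a1 := Nat.mul_le_mul_right m s2
        have a2 := Nat.mul_le_mul_left (Fintype.card U.L) t1
        have a3 := Nat.mul_le_mul_left (Fintype.card U.L) t2
        have a4 := Nat.mul_le_mul_right m u1
        nlinarith
    obtain ⟨S, -, h2, h3⟩ := key m
    refine ⟨S, ?_⟩
    rcases Nat.eq_zero_or_pos m with h | h
    · have := h3 h
      omega
    · exact Nat.le_of_mul_le_mul_right (h2.trans (mul_comm _ _).le) h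

theorem emb {X : Type} [LinearOrder X] (s : Finset X) (n : ℕ) (h : s.card ≤ n) (hn : 0 < n) :
    ∃ φ : X → Fin n, ∀ x ∈ s, ∀ y ∈ s, φ x < φ y ↔ x < y := by
  refine ⟨fun x => if hx : x ∈ s then Fin.castLE h ((s.orderIsoOfFin rfl).symm ⟨x, hx⟩) else ⟨0, hn⟩,
    fun x hx y hy => ?_⟩
  simp only [dif_pos hx, dif_pos hy, Fin.castLE_lt_castLE_iff, OrderIso.lt_iff_lt, Subtype.mk_lt_mk]

/-- a set of cells with no pattern `abab` -/
def Av {X Y : Type} [LT X] [LT Y] (B : Finset (X × Y)) : Prop :=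
  ∀ a b c1 c2 c3 c4, a < b → ¬ c2 < c1 → c2 < c3 → ¬ c4 < c3 → (a, c1) ∈ B → (b, c2) ∈ B →
    (a, c3) ∈ B → (b, c4) ∈ B → False

theorem trans {X Y : Type} [LinearOrder X] [LinearOrder Y] (B : Finset (X × Y)) (hB : Av B) (n : ℕ)
    (s : Finset X) (t : Finset Y) (hs : s.card ≤ n) (ht : t.card ≤ n) (hn : 0 < n)
    (h : ∀ x ∈ B, x.1 ∈ s ∧ x.2 ∈ t) : ∃ A : Finset (Fin n × Fin n), Av A ∧ A.card = B.card := by
  obtain ⟨φ, h1⟩ := emb s n hs hn
  obtain ⟨ψ, h2⟩ := emb t n ht hn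
  have i1 : ∀ x ∈ s, ∀ y ∈ s, φ x = φ y → x = y := fun x hx y hy e => le_antisymm
    (not_lt.1 fun h => ((h1 _ hy _ hx).2 h).ne' e) (not_lt.1 fun h => ((h1 _ hx _ hy).2 h).ne e)
  have i2 : ∀ x ∈ t, ∀ y ∈ t, ψ x = ψ y → x = y := fun x hx y hy e => le_antisymm
    (not_lt.1 fun h => ((h2 _ hy _ hx).2 h).ne' e) (not_lt.1 fun h => ((h2 _ hx _ hy).2 h).ne e)
  refine ⟨B.image fun x => (φ x.1, ψ x.2), fun a b c1 c2 c3 c4 l0 l1 l2 l3 m1 m2 m3 m4 => ?_,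
    card_image_of_injOn fun x hx y hy e => Prod.ext (i1 _ (h x hx).1 _ (h y hy).1 (Prod.mk.inj e).1)
      (i2 _ (h x hx).2 _ (h y hy).2 (Prod.mk.inj e).2)⟩
  obtain ⟨⟨x1, y1⟩, n1, e1⟩ := mem_image.1 m1
  obtain ⟨⟨x2, y2⟩, n2, e2⟩ := mem_image.1 m2
  obtain ⟨⟨x3, y3⟩, n3, e3⟩ := mem_image.1 m3
  obtain ⟨⟨x4, y4⟩, n4, e4⟩ := mem_image.1 m4
  obtain ⟨rfl, rfl⟩ := Prod.mk.inj e1
  obtain ⟨rfl, rfl⟩ := Prod.mk.inj e2
  obtain ⟨f3, rfl⟩ := Prod.mk.inj e3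
  obtain ⟨f4, rfl⟩ := Prod.mk.inj e4
  obtain rfl : x3 = x1 := i1 _ (h _ n3).1 _ (h _ n1).1 f3
  obtain rfl : x4 = x2 := i1 _ (h _ n4).1 _ (h _ n2).1 f4
  exact hB _ _ _ _ _ _ ((h1 _ (h _ n1).1 _ (h _ n2).1).1 l0) 
    (fun h' => l1 ((h2 _ (h _ n2).2 _ (h _ n1).2).2 h')) ((h2 _ (h _ n2).2 _ (h _ n3).2).1 l2)
    (fun h' => l3 ((h2 _ (h _ n4).2 _ (h _ n3).2).2 h')) n1 n2 n3 n4

theorem superlin (k : ℕ) : ∃ N, ∀ n ≥ N, ∃ A : Finset (Fin n × Fin n), Av A ∧ k * n ≤ A.card := by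
  obtain ⟨S, hS⟩ := exi (2 * k) 2
  have h0 := S.h0
  refine ⟨2 * Fintype.card S.L, fun n hn => ?_⟩
  set q := n / (2 * Fintype.card S.L) with hq
  have q1 : q * (2 * Fintype.card S.L) ≤ n := Nat.div_mul_le_self _ _
  have q2 : n < q * (2 * Fintype.card S.L) + 2 * Fintype.card S.L := Nat.lt_div_mul_add (by omega)
  have q3 : 1 ≤ q := Nat.div_pos hn (by omega)
  let F : (Σ _ : Fin q × S.L × Fin 2, S.C) → (Fin q ×ₗ S.Lᵒᵈ ×ₗ Fin 2) × (Fin q ×ₗ S.C) := fun x =>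
    (toLex (x.1.1, toLex (OrderDual.toDual x.1.2.1, x.1.2.2)), toLex (x.1.1, x.2))
  obtain ⟨A, a1, a2⟩ := trans ((univ.sigma fun x => S.row x.2.1 x.2.2).image F)
    (fun a b c1 c2 c3 c4 l0 l1 l2 l3 m1 m2 m3 m4 => by
      obtain ⟨⟨⟨z1, u1, i1⟩, y1⟩, n1, e1⟩ := mem_image.1 m1
      obtain ⟨⟨⟨z2, u2, i2⟩, y2⟩, n2, e2⟩ := mem_image.1 m2
      obtain ⟨⟨⟨z3, u3, i3⟩, y3⟩, n3, e3⟩ := mem_image.1 m3
      obtain ⟨⟨⟨z4, u4, i4⟩, y4⟩, n4, e4⟩ := mem_image.1 m4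
      obtain ⟨rfl, rfl⟩ := Prod.mk.inj e1
      obtain ⟨rfl, rfl⟩ := Prod.mk.inj e2
      obtain ⟨f3, rfl⟩ := Prod.mk.inj e3
      obtain ⟨f4, rfl⟩ := Prod.mk.inj e4
      simp only [toLex_inj, Prod.mk.injEq, OrderDual.toDual_inj] at f3 f4
      obtain ⟨rfl, rfl, rfl⟩ := f3
      obtain ⟨rfl, rfl, rfl⟩ := f4
      simp only [Prod.Lex.toLex_lt_toLex, OrderDual.toDual_lt_toDual, OrderDual.toDual_inj,
        mem_sigma, mem_univ, true_and] at l0 l1 l2 l3 n1 n2 n3 n4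
      obtain rfl : z3 = z4 := by
        rcases l2 with h' | h'
        exacts [absurd (Or.inl h') l1, h'.1.symm]
      simp only [lt_self_iff_false, true_and, false_or, not_lt] at l0 l1 l2 l3
      exact S.h6 u3 i3 u4 i4 (l0.imp_right fun h => ⟨h.1.symm, h.2⟩) _ n2 _ n3 _ n4
        (((S.h3 _ _ _ n1).elim (fun h => h.ge) fun h => h.1.le).trans l1) l2 l3) n univ
    ((univ ×ˢ (S.D ∪ univ.image S.p)).image toLex) (by simp; linarith)
    (card_image_le.trans (by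
      have := (card_union_le S.D (univ.image S.p)).trans (Nat.add_le_add hS card_image_le)
      rw [card_product, card_fin]
      exact (Nat.mul_le_mul_left q (this.trans (two_mul _).ge)).trans q1)) (by omega) fun x hx => by
      obtain ⟨⟨⟨z, u, i⟩, y⟩, n1, rfl⟩ := mem_image.1 hx
      refine ⟨mem_univ _, mem_image_of_mem _ (mem_product.2 ⟨mem_univ _, ?_⟩)⟩
      rcases S.h3 _ _ _ (mem_sigma.1 n1).2 with h | h
      · exact mem_union_right _ (mem_image.2 ⟨u, mem_univ _, h.symm⟩)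
      · exact mem_union_left _ h.2
  refine ⟨A, a1, ?_⟩
  rw [a2, card_image_of_injective _ (by
    rintro ⟨⟨z1, u1, i1⟩, y1⟩ ⟨⟨z2, u2, i2⟩, y2⟩ h
    simp only [F, toLex_inj, Prod.mk.injEq, OrderDual.toDual_inj] at h
    obtain ⟨⟨rfl, rfl, rfl⟩, -, rfl⟩ := h
    rfl), card_sigma]
  have := card_nsmul_le_sum (univ : Finset (Fin q × S.L × Fin 2))
    (fun x => (S.row x.2.1 x.2.2).card) (2 * k + 1) fun x _ => S.h5 _ _
  simp only [card_univ, Fintype.card_prod, Fintype.card_fin, smul_eq_mul] at this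
  refine le_trans ?_ this
  have q4 := Nat.mul_le_mul_right (2 * Fintype.card S.L) q3
  nlinarith

end Pool.Agent.H.MP_f2a48e_co
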